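import Pool.Agent.X137.Cov.Meas

/-!
# MP_bcdb6f_co: the set of coverable spacings of the square lattice is not an interval

`L_d` is coverable for `d = 1 / √5` and for `d = 2`, but not for `4 / 17 < d ^ 2 ≤ 0.238`.
-/

open MeasureTheory Metric Set

namespace Pool.Agent.Results.MP_bcdb6f_co.NotInterval

/-- the Euclidean plane -/
abbrev Plane := EuclideanSpace ℝ (Fin 2)

/-- the square lattice `L_d = {(d a, d b) : a, b ∈ ℤ}` -/
def lattice (d : ℝ) : Set Plane := {p | ∃ a b : ℤ, p = !₂[d * (a : ℝ), d * (b : ℝ)]}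

/-- `L_d` is coverable: there is a family of closed unit disks (`S` is the set of their centres)
with pairwise disjoint interiors such that every point of `L_d` lies in one of the disks. -/
def Coverable (d : ℝ) : Prop :=
  ∃ S : Set Plane, (S.PairwiseDisjoint fun c => interior (closedBall c 1)) ∧
    ∀ p ∈ lattice d, ∃ c ∈ S, p ∈ closedBall c 1

/-- the set `C` of the spacings `d > 0` such that `L_d` is coverable -/
def C : Set ℝ := {d | 0 < d ∧ Coverable d}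

theorem disj_iff (c c' : Plane) :
    Disjoint (interior (closedBall c 1)) (interior (closedBall c' 1)) ↔ 2 ≤ ‖c - c'‖ := by
  rw [interior_closedBall _ one_ne_zero, interior_closedBall _ one_ne_zero,
    disjoint_ball_ball_iff one_pos one_pos, dist_eq_norm]
  norm_num

theorem norm_sq (x : Plane) : ‖x‖ ^ 2 = x 0 ^ 2 + x 1 ^ 2 := by
  rw [EuclideanSpace.norm_sq_eq, Fin.sum_univ_two]
  simp

theorem two_le_norm (x : Plane) (h : 4 ≤ x 0 ^ 2 + x 1 ^ 2) : 2 ≤ ‖x‖ := by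
  have := norm_sq x
  nlinarith [norm_nonneg x]

theorem norm_le_of (x : Plane) {r : ℝ} (hr : 0 ≤ r) (h : x 0 ^ 2 + x 1 ^ 2 ≤ r ^ 2) : ‖x‖ ≤ r := by
  have := norm_sq x
  exact le_of_sq_le_sq (by linarith) hr

theorem not_coverable {d : ℝ} (hd : 0 < d) (h1 : 4 / 17 < d ^ 2) (h2 : d ^ 2 ≤ 0.238) :
    ¬ Coverable d := by
  classical
  rintro ⟨S, hS, hcov⟩
  have hsep : ∀ c ∈ S, ∀ c' ∈ S, c ≠ c' → 2 ≤ ‖c - c'‖ := fun c hc c' hc' hne =>
    (disj_iff c c').1 (hS hc hc' hne)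
  have hch : ∀ p : ℤ × ℤ, ∃ c ∈ S, (!₂[d * (p.1 : ℝ), d * (p.2 : ℝ)] : Plane) ∈ closedBall c 1 :=
    fun p => hcov _ ⟨p.1, p.2, rfl⟩
  choose f hfS hf using hch
  have hfn : ∀ p : ℤ × ℤ, ‖(!₂[d * (p.1 : ℝ), d * (p.2 : ℝ)] : Plane) - f p‖ ≤ 1 := by
    intro p
    have := hf p
    rwa [mem_closedBall, dist_eq_norm] at this
  have key : ∀ N : ℕ, (N : ℝ) ^ 2 * (2 * Real.pi * (1991 / 3750)) ≤ 14 * (d * N + 6) ^ 2 := by
    intro N
    set s : Finset (ℤ × ℤ) := Finset.Ico (0 : ℤ) N ×ˢ Finset.Ico (0 : ℤ) N with hs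
    have hcard : s.card = N ^ 2 := by
      rw [hs, Finset.card_product, Int.card_Ico]
      simp [sq]
    have h14 : s.card ≤ 14 * (s.image f).card := by
      refine Finset.card_le_mul_card_image s 14 fun c _ => ?_
      refine Pool.Agent.X137.Cov.card_le_14 _ fun p hp q hq => ?_
      obtain ⟨-, rfl⟩ := Finset.mem_filter.1 hp
      obtain ⟨-, hqc⟩ := Finset.mem_filter.1 hq
      have e1 := hfn p
      have e2 := hfn q
      rw [hqc] at e2
      have e3 : ‖(!₂[d * (p.1 : ℝ), d * (p.2 : ℝ)] : Plane) -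
          !₂[d * (q.1 : ℝ), d * (q.2 : ℝ)]‖ ≤ 2 := by
        calc _ = ‖((!₂[d * (p.1 : ℝ), d * (p.2 : ℝ)] : Plane) - f p) -
              (!₂[d * (q.1 : ℝ), d * (q.2 : ℝ)] - f p)‖ := by rw [sub_sub_sub_cancel_right]
          _ ≤ _ := norm_sub_le _ _
          _ ≤ 2 := by linarith
      have e4 := norm_sq ((!₂[d * (p.1 : ℝ), d * (p.2 : ℝ)] : Plane) -
          !₂[d * (q.1 : ℝ), d * (q.2 : ℝ)])
      simp only [PiLp.sub_apply, Matrix.cons_val_zero, Matrix.cons_val_one] at e4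
      have e5 : d ^ 2 * (((p.1 : ℝ) - q.1) ^ 2 + ((p.2 : ℝ) - q.2) ^ 2) ≤ 4 := by
        have : ‖(!₂[d * (p.1 : ℝ), d * (p.2 : ℝ)] : Plane) -
          !₂[d * (q.1 : ℝ), d * (q.2 : ℝ)]‖ ^ 2 ≤ 2 ^ 2 := by
          gcongr
        rw [e4] at this
        nlinarith
      by_contra hcon
      push Not at hcon
      have e6 : (17 : ℝ) ≤ ((p.1 : ℝ) - q.1) ^ 2 + ((p.2 : ℝ) - q.2) ^ 2 := by
        have : (17 : ℤ) ≤ (p.1 - q.1) ^ 2 + (p.2 - q.2) ^ 2 := by omega
        exact_mod_cast this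
      nlinarith
    have hb := Pool.Agent.X137.Cov.card_bound (s.image f) (d * N) (by positivity) ?_ ?_
    · have h3 : (N : ℝ) ^ 2 ≤ 14 * ((s.image f).card : ℝ) := by
        rw [hcard] at h14
        exact_mod_cast h14
      have hpi : 0 ≤ 2 * Real.pi * (1991 / 3750) := by positivity
      calc (N : ℝ) ^ 2 * (2 * Real.pi * (1991 / 3750))
          ≤ (14 * ((s.image f).card : ℝ)) * (2 * Real.pi * (1991 / 3750)) :=
            mul_le_mul_of_nonneg_right h3 hpi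
        _ ≤ 14 * (d * N + 6) ^ 2 := by linarith
    · intro c hc i
      obtain ⟨p, hp, rfl⟩ := Finset.mem_image.1 hc
      have e1 := (Pool.Agent.X137.Cov.abs_coord_le _ i).trans (hfn p)
      rw [PiLp.sub_apply, abs_le] at e1
      have hp' : (0 ≤ p.1 ∧ p.1 < N) ∧ (0 ≤ p.2 ∧ p.2 < N) := by
        simpa [hs, Finset.mem_product, Finset.mem_Ico] using hp
      have hi : 0 ≤ (!₂[d * (p.1 : ℝ), d * (p.2 : ℝ)] : Plane) i ∧
          (!₂[d * (p.1 : ℝ), d * (p.2 : ℝ)] : Plane) i ≤ d * N := by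
        have a1 : (0 : ℝ) ≤ p.1 := by exact_mod_cast hp'.1.1
        have a2 : (p.1 : ℝ) ≤ N := by exact_mod_cast hp'.1.2.le
        have a3 : (0 : ℝ) ≤ p.2 := by exact_mod_cast hp'.2.1
        have a4 : (p.2 : ℝ) ≤ N := by exact_mod_cast hp'.2.2.le
        fin_cases i
        · simp only [Fin.zero_eta, Matrix.cons_val_zero]
          exact ⟨by positivity, mul_le_mul_of_nonneg_left a2 hd.le⟩
        · simp only [Fin.mk_one, Matrix.cons_val_one, Matrix.cons_val_zero]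
          exact ⟨by positivity, mul_le_mul_of_nonneg_left a4 hd.le⟩
      constructor <;> linarith [hi.1, hi.2, e1.1, e1.2]
    · intro c hc c' hc' hne
      obtain ⟨p, -, rfl⟩ := Finset.mem_image.1 hc
      obtain ⟨q, -, rfl⟩ := Finset.mem_image.1 hc'
      exact hsep _ (hfS p) _ (hfS q) hne
  have hk := key 100000
  have hpi : (3.14 : ℝ) < Real.pi := Real.pi_gt_d2
  have hd2 : d < 0.49 := by nlinarith
  push_cast at hk
  nlinarith

theorem coverable_two : Coverable 2 := by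
  refine ⟨lattice 2, ?_, fun p hp => ⟨p, hp, mem_closedBall_self zero_le_one⟩⟩
  rintro _ ⟨a, b, rfl⟩ _ ⟨a', b', rfl⟩ hne
  refine (disj_iff _ _).2 (two_le_norm _ ?_)
  simp only [PiLp.sub_apply, Matrix.cons_val_zero, Matrix.cons_val_one]
  have h : (1 : ℤ) ≤ (a - a') ^ 2 + (b - b') ^ 2 := by
    by_contra hc
    push Not at hc
    have h1 : (a - a') ^ 2 = 0 := by nlinarith [sq_nonneg (a - a'), sq_nonneg (b - b')]
    have h2 : (b - b') ^ 2 = 0 := by nlinarith [sq_nonneg (a - a'), sq_nonneg (b - b')]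
    have h3 : a = a' := by
      have := pow_eq_zero_iff (two_ne_zero) |>.1 h1
      omega
    have h4 : b = b' := by
      have := pow_eq_zero_iff (two_ne_zero) |>.1 h2
      omega
    exact hne (by rw [h3, h4])
  have h' : (1 : ℝ) ≤ ((a : ℝ) - a') ^ 2 + ((b : ℝ) - b') ^ 2 := by exact_mod_cast h
  nlinarith

/-- the centres of the disks for `d = 1 / √5` -/
def centres (d : ℝ) : Set Plane :=
  {p | ∃ k m : ℤ, p = !₂[d * (4 * (k : ℝ)), d * (2 * (k : ℝ) + 5 * m)]}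

theorem coverable_sqrt : Coverable (1 / √5) := by
  set d : ℝ := 1 / √5 with hd
  have hd2 : d ^ 2 = 1 / 5 := by
    rw [hd, div_pow, Real.sq_sqrt (by norm_num)]
    norm_num
  refine ⟨centres d, ?_, ?_⟩
  · rintro _ ⟨k, m, rfl⟩ _ ⟨k', m', rfl⟩ hne
    refine (disj_iff _ _).2 (two_le_norm _ ?_)
    simp only [PiLp.sub_apply, Matrix.cons_val_zero, Matrix.cons_val_one]
    have h : (20 : ℤ) ≤ (4 * (k - k')) ^ 2 + (2 * (k - k') + 5 * (m - m')) ^ 2 := by
      by_cases hm : m = m'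
      · have hk : k ≠ k' := by
          rintro rfl
          exact hne (by rw [hm])
        have h1 : 1 ≤ (k - k') ^ 2 := by
          have : 0 < (k - k') ^ 2 := by
            have : k - k' ≠ 0 := sub_ne_zero.2 hk
            positivity
          omega
        rw [hm]
        nlinarith
      · have h1 : 1 ≤ (m - m') ^ 2 := by
          have : 0 < (m - m') ^ 2 := by
            have : m - m' ≠ 0 := sub_ne_zero.2 hm
            positivity
          omega
        nlinarith [sq_nonneg (2 * (k - k') + (m - m'))]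
    have h' : (20 : ℝ) ≤ (4 * ((k : ℝ) - k')) ^ 2 + (2 * ((k : ℝ) - k') + 5 * ((m : ℝ) - m')) ^ 2 := by
      exact_mod_cast h
    have e : (d * (4 * (k : ℝ)) - d * (4 * (k' : ℝ))) ^ 2 +
        (d * (2 * (k : ℝ) + 5 * m) - d * (2 * (k' : ℝ) + 5 * m')) ^ 2 =
        d ^ 2 * ((4 * ((k : ℝ) - k')) ^ 2 + (2 * ((k : ℝ) - k') + 5 * ((m : ℝ) - m')) ^ 2) := by
      ring
    rw [e, hd2]
    linarith
  · rintro _ ⟨a, b, rfl⟩
    obtain ⟨k, m, hkm⟩ : ∃ k m : ℤ, (a - 4 * k) ^ 2 + (b - (2 * k + 5 * m)) ^ 2 ≤ 5 := by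
      obtain ⟨k, u, hu, hk⟩ : ∃ k u : ℤ, (u = -1 ∨ u = 0 ∨ u = 1 ∨ u = 2) ∧ a = 4 * k + u :=
        ⟨(a + 1) / 4, a - 4 * ((a + 1) / 4), by omega, by omega⟩
      obtain ⟨m, w, hw, hm⟩ : ∃ m w : ℤ, (w = -2 ∨ w = -1 ∨ w = 0 ∨ w = 1 ∨ w = 2) ∧
          b = 2 * k + 5 * m + w :=
        ⟨(b - 2 * k + 2) / 5, b - 2 * k - 5 * ((b - 2 * k + 2) / 5), by omega, by omega⟩
      subst hm hk
      by_cases hc : u ^ 2 + w ^ 2 ≤ 5
      · refine ⟨k, m, ?_⟩
        have : (4 * k + u - 4 * k) ^ 2 + (2 * k + 5 * m + w - (2 * k + 5 * m)) ^ 2 =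
          u ^ 2 + w ^ 2 := by ring
        rw [this]
        exact hc
      · rcases hu with rfl | rfl | rfl | rfl <;> rcases hw with rfl | rfl | rfl | rfl | rfl <;>
          first
          | (exfalso; apply hc; norm_num; done)
          | (refine ⟨k + 1, m - 1, ?_⟩; ring_nf; norm_num; done)
          | (refine ⟨k + 1, m, ?_⟩; ring_nf; norm_num; done)
    refine ⟨_, ⟨k, m, rfl⟩, ?_⟩
    rw [mem_closedBall, dist_eq_norm]
    refine norm_le_of _ zero_le_one ?_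
    simp only [PiLp.sub_apply, Matrix.cons_val_zero, Matrix.cons_val_one]
    have h' : ((a : ℝ) - 4 * k) ^ 2 + ((b : ℝ) - (2 * k + 5 * m)) ^ 2 ≤ 5 := by exact_mod_cast hkm
    have e : (d * (a : ℝ) - d * (4 * (k : ℝ))) ^ 2 + (d * (b : ℝ) - d * (2 * (k : ℝ) + 5 * m)) ^ 2 =
        d ^ 2 * (((a : ℝ) - 4 * k) ^ 2 + ((b : ℝ) - (2 * k + 5 * m)) ^ 2) := by ring
    rw [e, hd2]
    linarith

/-- The set `C` of the coverable spacings is not an interval: `1 / √5 ∈ C` and `2 ∈ C`, but no `d`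
with `4 / 17 < d ^ 2 ≤ 0.238` (for example `d = 0.486`) lies in `C`. -/
theorem result :
    1 / √5 ∈ C ∧ 2 ∈ C ∧ (∀ d : ℝ, 0 < d → 4 / 17 < d ^ 2 → d ^ 2 ≤ 0.238 → d ∉ C) ∧
    ¬ ∀ x y z : ℝ, x ∈ C → z ∈ C → x < y → y < z → y ∈ C := by
  have h1 : 1 / √5 ∈ C := ⟨by positivity, coverable_sqrt⟩
  have h2 : (2 : ℝ) ∈ C := ⟨by norm_num, coverable_two⟩
  have h3 : ∀ d : ℝ, 0 < d → 4 / 17 < d ^ 2 → d ^ 2 ≤ 0.238 → d ∉ C :=
    fun d hd ha hb hc => not_coverable hd ha hb hc.2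
  refine ⟨h1, h2, h3, fun h => ?_⟩
  refine h3 0.486 (by norm_num) (by norm_num) (by norm_num) (h (1 / √5) 0.486 2 h1 h2 ?_ (by norm_num))
  rw [div_lt_iff₀ (by positivity)]
  have : (2.2 : ℝ) < √5 := by
    rw [Real.lt_sqrt (by norm_num)]
    norm_num
  linarith

end Pool.Agent.Results.MP_bcdb6f_co.NotInterval
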